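import Pool.Agent.H15.FamExit

/-!
H65 LN: generic subspaces of a space of dependencies.
-/

open Module Submodule

namespace H65.LN

variable {ι : Type*} [Fintype ι]

/-- the functions which vanish off `X`. -/
def cs (X : Finset ι) : Submodule ℝ (ι → ℝ) where
  carrier := {c | ∀ i, i ∉ X → c i = 0}
  add_mem' := fun ha hb i hi => by simp [ha i hi, hb i hi]
  zero_mem' := fun _ _ => rfl
  smul_mem' := fun r a ha i hi => by simp [ha i hi]

omit [Fintype ι] in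
theorem mem_cs {X : Finset ι} {c : ι → ℝ} : c ∈ cs X ↔ ∀ i, i ∉ X → c i = 0 := Iff.rfl

/-- the functions orthogonal to `f`. -/
noncomputable def perp (f : ι → ℝ) : Submodule ℝ (ι → ℝ) :=
  LinearMap.ker (∑ i, f i • (LinearMap.proj i : (ι → ℝ) →ₗ[ℝ] ℝ))

theorem mem_perp {f c : ι → ℝ} : c ∈ perp f ↔ ∑ i, f i * c i = 0 := by
  unfold perp
  rw [LinearMap.mem_ker]
  simp

/-- dimension drop at most one. -/
theorem finrank_perp_ge (Γ : Submodule ℝ (ι → ℝ)) (f : ι → ℝ) :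
    finrank ℝ Γ ≤ finrank ℝ ↥(Γ ⊓ perp f) + 1 :=
  H15.finrank_inf_ker_ge Γ _

/-- dimension drop at least one. -/
theorem finrank_perp_lt (Γ : Submodule ℝ (ι → ℝ)) (f : ι → ℝ) {u : ι → ℝ} (hu : u ∈ Γ)
    (hf : ∑ i, f i * u i ≠ 0) : finrank ℝ ↥(Γ ⊓ perp f) < finrank ℝ Γ :=
  H15.finrank_inf_ker_lt Γ _ hu (by simpa using hf)

/-- a positive function which is generic with respect to the coordinate subspaces. -/
theorem exists_positive_generic (Γ : Submodule ℝ (ι → ℝ)) :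
    ∃ f : ι → ℝ, (∀ i, 0 < f i) ∧ ∀ X : Finset ι, Γ ⊓ cs X ≠ ⊥ →
      ∃ u ∈ Γ ⊓ cs X, ∑ i, f i * u i ≠ 0 := by
  classical
  let κ := {X : Finset ι // Γ ⊓ cs X ≠ ⊥}
  have h1 : ∀ X : κ, ∃ u ∈ Γ ⊓ cs X.1, u ≠ 0 := fun X => (Submodule.ne_bot_iff _).1 X.2
  choose u hu hu0 using h1
  let p : κ → Submodule ℝ (ι → ℝ) := fun X => perp (u X)
  have hp : ∀ X, p X ≠ ⊤ := by
    intro X htop
    have h2 : u X ∈ p X := by rw [htop]; trivial
    have h3 : ∑ i, u X i * u X i = 0 := mem_perp.1 h2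
    apply hu0 X
    ext i
    have h4 := (Finset.sum_eq_zero_iff_of_nonneg (fun i _ => mul_self_nonneg (u X i))).1 h3 i
      (Finset.mem_univ _)
    simpa using h4
  obtain ⟨z, hz⟩ := H15.exists_generic p hp
  have h2 := H15.eventually_generic p (fun _ => (1 : ℝ)) z hz
  have h3 : ∀ᶠ ε in nhdsWithin (0:ℝ) (Set.Ioi 0), ∀ i, 0 < (1 : ℝ) + ε * z i := by
    rw [Filter.eventually_all]
    intro i
    have hcont : Filter.Tendsto (fun ε : ℝ => (1 : ℝ) + ε * z i) (nhdsWithin (0:ℝ) (Set.Ioi 0))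
        (nhds (1 + 0 * z i)) := by
      apply Filter.Tendsto.mono_left _ nhdsWithin_le_nhds
      exact (Continuous.tendsto (by fun_prop) 0)
    exact hcont.eventually (lt_mem_nhds (by norm_num))
  obtain ⟨ε, h4, h5⟩ := (h2.and h3).exists
  refine ⟨(fun _ => (1 : ℝ)) + ε • z, fun i => by simpa using h5 i, fun X hX => ?_⟩
  refine ⟨u ⟨X, hX⟩, hu ⟨X, hX⟩, ?_⟩
  have h6 := h4 ⟨X, hX⟩
  intro h7
  apply h6
  change _ ∈ perp (u ⟨X, hX⟩)
  rw [mem_perp, ← h7]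
  exact Finset.sum_congr rfl fun i _ => mul_comm _ _

omit [Fintype ι] in
theorem cs_univ [Fintype ι] : cs (Finset.univ : Finset ι) = ⊤ := by
  rw [eq_top_iff]
  intro c _ i hi
  exact absurd (Finset.mem_univ i) hi

/-- **the generic lift.** -/
theorem exists_generic_sub : ∀ (j : ℕ) (Γ : Submodule ℝ (ι → ℝ)), j ≤ finrank ℝ Γ →
    ∃ Γ' : Submodule ℝ (ι → ℝ), Γ' ≤ Γ ∧ finrank ℝ Γ' + j = finrank ℝ Γ ∧
      (∀ X : Finset ι, finrank ℝ ↥(Γ' ⊓ cs X) ≤ finrank ℝ ↥(Γ ⊓ cs X) - j) ∧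
      (1 ≤ j → ∃ ψ : ι → ℝ, (∀ i, 0 < ψ i) ∧ ∀ c ∈ Γ', ∑ i, ψ i * c i = 0) := by
  classical
  intro j
  induction j with
  | zero =>
    intro Γ _
    exact ⟨Γ, le_rfl, rfl, fun X => le_rfl, fun h => absurd h (by norm_num)⟩
  | succ j ih =>
    intro Γ hj
    obtain ⟨f, hf, hgen⟩ := exists_positive_generic Γ
    have hne : Γ ⊓ cs Finset.univ ≠ ⊥ := by
      rw [cs_univ, inf_top_eq]
      intro h0
      rw [h0, finrank_bot] at hj
      omega
    obtain ⟨u, hu, hfu⟩ := hgen Finset.univ hne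
    have h1 := finrank_perp_lt Γ f hu.1 hfu
    have h2 := finrank_perp_ge Γ f
    obtain ⟨Γ', h3, h4, h5, -⟩ := ih (Γ ⊓ perp f) (by omega)
    refine ⟨Γ', h3.trans inf_le_left, by omega, fun X => ?_, fun _ => ⟨f, hf, fun c hc => ?_⟩⟩
    · have h6 := h5 X
      by_cases hX : Γ ⊓ cs X = ⊥
      · have h7 : Γ ⊓ perp f ⊓ cs X = ⊥ := by
          rw [eq_bot_iff, ← hX]
          exact inf_le_inf_right _ inf_le_left
        rw [h7, finrank_bot] at h6
        omega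
      · obtain ⟨w, hw, hfw⟩ := hgen X hX
        have h7 := finrank_perp_lt (Γ ⊓ cs X) f hw hfw
        have h8 : Γ ⊓ perp f ⊓ cs X = Γ ⊓ cs X ⊓ perp f := by
          rw [inf_assoc, inf_comm (perp f), ← inf_assoc]
        rw [h8] at h6
        omega
    · exact mem_perp.1 (h3 hc).2

/-- dimension bound by a determining set of coordinates. -/
theorem finrank_le_card (Γ : Submodule ℝ (ι → ℝ)) (T : Finset ι)
    (h : ∀ c ∈ Γ, (∀ i ∈ T, c i = 0) → c = 0) : finrank ℝ Γ ≤ T.card := by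
  classical
  let g : Γ →ₗ[ℝ] (T → ℝ) := (LinearMap.funLeft ℝ ℝ (Subtype.val : T → ι)).comp Γ.subtype
  have hg : Function.Injective g := by
    rw [injective_iff_map_eq_zero]
    intro c hc
    apply Subtype.ext
    refine h c.1 c.2 fun i hi => ?_
    exact congrFun hc ⟨i, hi⟩
  have := LinearMap.finrank_le_finrank_of_injective hg
  simpa using this

end H65.LN
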