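import Pool.Agent.H65.LN.Points
import Pool.Agent.H65.LN.Gen

/-!
H65 LN: a space `Γ` of dependencies gives a point set, hence a lower bound for `nDiv`.
-/

open Module Submodule

namespace H65.LN

variable {ι : Type*} [Fintype ι] [DecidableEq ι]

/-- the vectors of the configuration with space of dependencies `Γ`. -/
noncomputable def qv (Γ : Submodule ℝ (ι → ℝ)) (i : ι) : (ι → ℝ) ⧸ Γ := Γ.mkQ (Pi.single i 1)

/-- their spans. -/
noncomputable def qsp (Γ : Submodule ℝ (ι → ℝ)) (X : Set ι) : Submodule ℝ ((ι → ℝ) ⧸ Γ) :=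
  span ℝ (qv Γ '' X)

variable {Γ : Submodule ℝ (ι → ℝ)}

theorem sum_qv (c : ι → ℝ) : ∑ i, c i • qv Γ i = Γ.mkQ c := by
  unfold qv
  simp only [← map_smul, ← map_sum]
  congr 1
  ext j
  simp [Finset.sum_apply, Pi.single_apply]

theorem sum_qv_eq_zero {c : ι → ℝ} (h : ∑ i, c i • qv Γ i = 0) : c ∈ Γ := by
  rw [sum_qv, ← LinearMap.mem_ker, Submodule.ker_mkQ] at h
  exact h

omit [Fintype ι] in
theorem card_le_cs [Fintype ι] (X : Finset ι) : X.card ≤ finrank ℝ (cs X) := by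
  let g : (X → ℝ) →ₗ[ℝ] cs X :=
    { toFun := fun a => ⟨fun i => if h : i ∈ X then a ⟨i, h⟩ else 0, fun i hi => by simp [hi]⟩
      map_add' := by
        intro a b
        apply Subtype.ext
        ext i
        by_cases h : i ∈ X <;> simp [h]
      map_smul' := by
        intro r a
        apply Subtype.ext
        ext i
        by_cases h : i ∈ X <;> simp [h] }
  have hg : Function.Injective g := by
    intro a b hab
    ext i
    have h1 := congrFun (congrArg Subtype.val hab) i.1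
    simpa [g, i.2] using h1
  have := LinearMap.finrank_le_finrank_of_injective hg
  simpa using this

/-- rank and nullity. -/
theorem card_le_finrank_qsp (X : Finset ι) :
    X.card ≤ finrank ℝ (qsp Γ (X : Set ι)) + finrank ℝ ↥(Γ ⊓ cs X) := by
  have h1 := LinearMap.finrank_range_add_finrank_ker (Γ.mkQ.domRestrict (cs X))
  have h2 : LinearMap.range (Γ.mkQ.domRestrict (cs X)) ≤ qsp Γ (X : Set ι) := by
    rintro _ ⟨c, rfl⟩
    rw [LinearMap.domRestrict_apply, ← sum_qv]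
    refine Submodule.sum_mem _ fun i _ => ?_
    by_cases hi : i ∈ X
    · exact Submodule.smul_mem _ _ (subset_span ⟨i, hi, rfl⟩)
    · rw [c.2 i hi, zero_smul]
      exact Submodule.zero_mem _
  have h3 := Submodule.finrank_mono h2
  have h4 : finrank ℝ (LinearMap.ker (Γ.mkQ.domRestrict (cs X))) ≤ finrank ℝ ↥(Γ ⊓ cs X) := by
    let g : LinearMap.ker (Γ.mkQ.domRestrict (cs X)) →ₗ[ℝ] ↥(Γ ⊓ cs X) :=
      LinearMap.codRestrict _
        ((cs X).subtype.comp (LinearMap.ker (Γ.mkQ.domRestrict (cs X))).subtype)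
        (fun x => ⟨by
          have h5 := x.2
          rw [LinearMap.mem_ker, LinearMap.domRestrict_apply, ← LinearMap.mem_ker,
            Submodule.ker_mkQ] at h5
          exact h5, x.1.2⟩)
    exact LinearMap.finrank_le_finrank_of_injective (f := g) (by
      intro x y hxy
      have := congrArg (fun z : ↥(Γ ⊓ cs X) => (z : ι → ℝ)) hxy
      exact Subtype.ext (Subtype.ext this))
  have h5 := card_le_cs X
  omega

/-- an affine chart. -/
theorem exists_chart {V : Type*} [AddCommGroup V] [Module ℝ V] [FiniteDimensional ℝ V] {d : ℕ}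
    (hV : finrank ℝ V = d + 1) (Ψ : V →ₗ[ℝ] ℝ) (hΨ : Ψ ≠ 0) :
    ∃ Φ : V →ₗ[ℝ] (EuclideanSpace ℝ (Fin d) × ℝ), Function.Injective Φ ∧
      ∀ v, (Φ v).2 = Ψ v := by
  obtain ⟨v0, hv0⟩ : ∃ v, Ψ v ≠ 0 := by
    by_contra hcon
    push Not at hcon
    exact hΨ (LinearMap.ext hcon)
  have hsurj : Function.Surjective Ψ := by
    intro r
    exact ⟨(r / Ψ v0) • v0, by rw [map_smul, smul_eq_mul, div_mul_cancel₀ _ hv0]⟩
  have h1 := LinearMap.finrank_range_add_finrank_ker Ψ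
  rw [LinearMap.range_eq_top.2 hsurj, finrank_top, finrank_self, hV] at h1
  have h2 : finrank ℝ (LinearMap.ker Ψ) = finrank ℝ (EuclideanSpace ℝ (Fin d)) := by
    rw [finrank_euclideanSpace_fin]; omega
  let φ : LinearMap.ker Ψ ≃ₗ[ℝ] EuclideanSpace ℝ (Fin d) := LinearEquiv.ofFinrankEq _ _ h2
  let o : V := (Ψ v0)⁻¹ • v0
  have ho : Ψ o = 1 := by
    simp only [o, map_smul, smul_eq_mul]
    exact inv_mul_cancel₀ hv0
  let P : V →ₗ[ℝ] LinearMap.ker Ψ :=
    LinearMap.codRestrict _ (LinearMap.id - (LinearMap.toSpanSingleton ℝ V o).comp Ψ) (fun v => by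
      rw [LinearMap.mem_ker]
      simp [ho])
  refine ⟨LinearMap.prod (φ.toLinearMap.comp P) Ψ, ?_, fun v => rfl⟩
  rw [injective_iff_map_eq_zero]
  intro v hv
  have h3 : Ψ v = 0 := congrArg Prod.snd hv
  have h4 : φ (P v) = 0 := congrArg Prod.fst hv
  have h5 : P v = 0 := by
    have := φ.map_eq_zero_iff.1 h4
    exact this
  have h6 : v - Ψ v • o = 0 := congrArg Subtype.val h5
  rw [h3, zero_smul, sub_zero] at h6
  exact h6

/-- **transfer.** -/
theorem lt_nDiv {k d : ℕ} (hkd : k ≤ d) (Γ : Submodule ℝ (ι → ℝ)) (ψ : ι → ℝ)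
    (hψ : ∀ i, 0 < ψ i) (hΓψ : ∀ c ∈ Γ, ∑ i, ψ i * c i = 0)
    (hdim : finrank ℝ Γ + (d + 1) = Fintype.card ι)
    (hinj : ∀ X : Finset ι, X.card = 2 → Γ ⊓ cs X = ⊥)
    (hflat : ∀ X : Finset ι, X.card ≤ k + 1 + finrank ℝ ↥(Γ ⊓ cs X) → X.card ≤ 2 * k + 1)
    (hrank : ∀ c ∈ Γ, finrank ℝ ↥(qsp Γ {i | 0 < c i} ⊓ qsp Γ {i | c i < 0}) ≤ k) :
    Fintype.card ι < H15.nDiv k d := by
  have hV : finrank ℝ ((ι → ℝ) ⧸ Γ) = d + 1 := by
    have := Submodule.finrank_quotient_add_finrank Γ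
    rw [finrank_fintype_fun_eq_card] at this
    omega
  have hker : Γ ≤ LinearMap.ker (∑ i, ψ i • (LinearMap.proj i : (ι → ℝ) →ₗ[ℝ] ℝ)) := by
    intro c hc
    rw [LinearMap.mem_ker]
    simpa using hΓψ c hc
  let Ψ : ((ι → ℝ) ⧸ Γ) →ₗ[ℝ] ℝ :=
    Γ.liftQ (∑ i, ψ i • (LinearMap.proj i : (ι → ℝ) →ₗ[ℝ] ℝ)) hker
  have hΨ : ∀ i, Ψ (qv Γ i) = ψ i := by
    intro i
    change Γ.liftQ _ hker (Γ.mkQ (Pi.single i 1)) = _
    rw [Submodule.mkQ_apply, Submodule.liftQ_apply]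
    simp [Pi.single_apply]
  have hne : Nonempty ι := by
    rw [← Fintype.card_pos_iff]
    omega
  obtain ⟨i0⟩ := hne
  have hΨ0 : Ψ ≠ 0 := by
    intro h0
    have := hΨ i0
    rw [h0, LinearMap.zero_apply] at this
    exact (hψ i0).ne this
  obtain ⟨Φ, hΦ, hΦ2⟩ := exists_chart hV Ψ hΨ0
  let u : ι → EuclideanSpace ℝ (Fin d) := fun i => (ψ i)⁻¹ • (Φ (qv Γ i)).1
  have hu1 : ∀ i, ((u i, (1 : ℝ)) : EuclideanSpace ℝ (Fin d) × ℝ) = (ψ i)⁻¹ • Φ (qv Γ i) := by
    intro i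
    rw [Prod.ext_iff]
    refine ⟨rfl, ?_⟩
    rw [Prod.smul_snd, hΦ2, hΨ, smul_eq_mul]
    exact (inv_mul_cancel₀ (hψ i).ne').symm
  have hlsp : ∀ X : Set ι, lsp u X = (qsp Γ X).map Φ := by
    intro X
    unfold lsp qsp
    rw [Submodule.map_span]
    apply le_antisymm
    · rw [span_le]
      rintro _ ⟨i, hi, rfl⟩
      change ((u i, (1 : ℝ)) : EuclideanSpace ℝ (Fin d) × ℝ) ∈ _
      rw [hu1]
      exact Submodule.smul_mem _ _ (subset_span ⟨_, ⟨i, hi, rfl⟩, rfl⟩)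
    · rw [span_le]
      rintro _ ⟨_, ⟨i, hi, rfl⟩, rfl⟩
      have h1 : Φ (qv Γ i) = ψ i • ((u i, (1 : ℝ)) : EuclideanSpace ℝ (Fin d) × ℝ) := by
        rw [hu1, smul_smul, mul_inv_cancel₀ (hψ i).ne', one_smul]
      rw [SetLike.mem_coe, h1]
      exact Submodule.smul_mem _ _ (subset_span ⟨i, hi, rfl⟩)
  have hinjmap : ∀ W : Submodule ℝ ((ι → ℝ) ⧸ Γ), finrank ℝ (W.map Φ) = finrank ℝ W :=
    fun W => ((Submodule.equivMapOfInjective Φ hΦ W).finrank_eq).symm
  have hu : Function.Injective u := by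
    intro i j hij
    by_contra hne
    have h1 : (ψ i)⁻¹ • Φ (qv Γ i) = (ψ j)⁻¹ • Φ (qv Γ j) := by
      rw [← hu1, ← hu1, hij]
    rw [← map_smul, ← map_smul] at h1
    have h2 := hΦ h1
    have h3 : (Pi.single i (ψ i)⁻¹ - Pi.single j (ψ j)⁻¹ : ι → ℝ) ∈ Γ := by
      rw [← Submodule.ker_mkQ Γ, LinearMap.mem_ker, map_sub, sub_eq_zero]
      unfold qv at h2
      rw [← map_smul, ← map_smul] at h2
      have h4 : ∀ l : ι, (Pi.single l (ψ l)⁻¹ : ι → ℝ) = (ψ l)⁻¹ • Pi.single l 1 := by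
        intro l
        rw [← Pi.single_smul, smul_eq_mul, mul_one]
      rw [h4, h4]
      exact h2
    have h4 : (Pi.single i (ψ i)⁻¹ - Pi.single j (ψ j)⁻¹ : ι → ℝ) ∈ Γ ⊓ cs {i, j} := by
      refine ⟨h3, fun l hl => ?_⟩
      rw [Finset.mem_insert, Finset.mem_singleton, not_or] at hl
      simp [hl.1, hl.2]
    rw [hinj _ (Finset.card_pair hne), Submodule.mem_bot] at h4
    have h5 := congrFun h4 i
    simp [hne] at h5
    exact (hψ i).ne' h5
  let S : Finset (EuclideanSpace ℝ (Fin d)) := Finset.univ.map ⟨u, hu⟩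
  have hS : ∀ x, x ∈ S ↔ ∃ i, u i = x := by
    intro x
    simp [S]
  have hcard : S.card = Fintype.card ι := by
    simp [S]
  by_contra hcon
  push Not at hcon
  refine not_divisible u hu S hS ?_ ((H15.nDiv_isLeast hkd).1 S (by omega)
    (flatCondition u hu S hS ?_))
  · intro c hc
    have h1 : ∑ i, (c i * (ψ i)⁻¹) • qv Γ i = 0 := by
      apply hΦ
      rw [map_sum, map_zero, ← hc]
      refine Finset.sum_congr rfl fun i _ => ?_
      rw [map_smul, hu1, smul_smul]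
    have h2 := hrank _ (sum_qv_eq_zero h1)
    have h3 : {i | 0 < c i * (ψ i)⁻¹} = {i | 0 < c i} := by
      ext i
      exact mul_pos_iff_of_pos_right (inv_pos.2 (hψ i))
    have h4 : {i | c i * (ψ i)⁻¹ < 0} = {i | c i < 0} := by
      ext i
      simp only [Set.mem_ofPred_eq]
      constructor
      · intro h
        by_contra h5
        push Not at h5
        have := mul_nonneg h5 (inv_pos.2 (hψ i)).le
        linarith
      · intro h
        exact mul_neg_of_neg_of_pos h (inv_pos.2 (hψ i))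
    rw [h3, h4] at h2
    rw [hlsp, hlsp, ← Submodule.map_inf Φ hΦ, hinjmap]
    exact h2
  · intro X hX
    rw [hlsp, hinjmap] at hX
    have h1 := card_le_finrank_qsp (Γ := Γ) X
    exact hflat X (by omega)

end H65.LN
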