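import Pool.Agent.H65.LN.Trans

/-!
H65 LN: the base configuration: `t` copies of the bond matroid of `K_{3,3}` (differences of
potentials) and `J` pairs of opposite vectors.
-/

open Module Submodule

namespace H65.LN

/-- indices: the edges of `t` copies of `K_{3,3}` and `J` pairs. -/
abbrev Idx (t J : ℕ) : Type := (Fin t × Fin 3 × Fin 3) ⊕ (Fin J × Bool)

/-- the space of dependencies. -/
def Base (t J : ℕ) : Submodule ℝ (Idx t J → ℝ) where
  carrier := {c | (∀ i p q p' q', c (.inl (i, p, q)) + c (.inl (i, p', q')) =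
      c (.inl (i, p, q')) + c (.inl (i, p', q))) ∧ ∀ j, c (.inr (j, false)) = c (.inr (j, true))}
  add_mem' := by
    rintro a b ⟨ha, ha'⟩ ⟨hb, hb'⟩
    refine ⟨fun i p q p' q' => ?_, fun j => ?_⟩
    · simp only [Pi.add_apply]
      have h1 := ha i p q p' q'
      have h2 := hb i p q p' q'
      linarith
    · simp only [Pi.add_apply, ha' j, hb' j]
  zero_mem' := ⟨fun _ _ _ _ _ => by simp, fun _ => rfl⟩
  smul_mem' := by
    rintro r a ⟨ha, ha'⟩
    refine ⟨fun i p q p' q' => ?_, fun j => ?_⟩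
    · simp only [Pi.smul_apply, smul_eq_mul]
      have h1 := ha i p q p' q'
      rw [← mul_add, ← mul_add, h1]
    · simp only [Pi.smul_apply, ha' j]

variable {t J : ℕ}

theorem card_idx : Fintype.card (Idx t J) = 9 * t + 2 * J := by
  simp [Idx]
  ring

/-- parameters. -/
noncomputable def par (t J : ℕ) :
    ((Fin t → Fin 2 → ℝ) × (Fin t → Fin 3 → ℝ)) × (Fin J → ℝ) →ₗ[ℝ] (Idx t J → ℝ) where
  toFun x := Sum.elim (fun y => x.1.2 y.1 y.2.2 - (Fin.cons 0 (x.1.1 y.1) : Fin 3 → ℝ) y.2.1)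
    (fun y => x.2 y.1)
  map_add' := by
    intro x y
    ext z
    rcases z with ⟨i, p, q⟩ | ⟨j, b⟩
    · refine Fin.cases ?_ (fun p => ?_) p
      · simp
      · simp; ring
    · simp
  map_smul' := by
    intro r x
    ext z
    rcases z with ⟨i, p, q⟩ | ⟨j, b⟩
    · refine Fin.cases ?_ (fun p => ?_) p
      · simp
      · simp; ring
    · simp

theorem par_mem (x) : par t J x ∈ Base t J := by
  refine ⟨fun i p q p' q' => ?_, fun j => rfl⟩
  simp only [par, LinearMap.coe_mk, AddHom.coe_mk, Sum.elim_inl]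
  ring

theorem par_injective : Function.Injective (par t J) := by
  rw [injective_iff_map_eq_zero]
  rintro ⟨⟨a, b⟩, e⟩ h
  have h1 : ∀ i q, b i q = 0 := by
    intro i q
    have := congrFun h (.inl (i, 0, q))
    simpa [par] using this
  have h2 : ∀ i p, a i p = 0 := by
    intro i p
    have := congrFun h (.inl (i, p.succ, 0))
    simpa [par, h1] using this
  have h3 : ∀ j, e j = 0 := by
    intro j
    have := congrFun h (.inr (j, false))
    simpa [par] using this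
  rw [Prod.mk_eq_zero, Prod.mk_eq_zero]
  refine ⟨⟨?_, ?_⟩, ?_⟩
  · ext i p; exact h2 i p
  · ext i q; exact h1 i q
  · ext j; exact h3 j

theorem finrank_base_ge : 5 * t + J ≤ finrank ℝ (Base t J) := by
  let g : ((Fin t → Fin 2 → ℝ) × (Fin t → Fin 3 → ℝ)) × (Fin J → ℝ) →ₗ[ℝ] Base t J :=
    LinearMap.codRestrict _ (par t J) par_mem
  have hg : Function.Injective g := by
    intro x y hxy
    exact par_injective (congrArg Subtype.val hxy)
  have h1 := LinearMap.finrank_le_finrank_of_injective hg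
  have h2 : finrank ℝ (((Fin t → Fin 2 → ℝ) × (Fin t → Fin 3 → ℝ)) × (Fin J → ℝ)) = 5 * t + J := by
    simp [finrank_pi_fintype]
    ring
  omega

/-- the spanning tree `A` of `K_{3,3}` relative to the edge `(0,0)`. -/
def inA (x y : Fin 3) : Bool :=
  (x = 0 ∧ y = 0) ∨ (x = 0 ∧ y = 1) ∨ (x = 1 ∧ y = 1) ∨ (x = 0 ∧ y = 2) ∨ (x = 2 ∧ y = 2)

/-- the spanning tree `B` of `K_{3,3}` relative to the edge `(0,0)`. -/
def inB (x y : Fin 3) : Bool :=
  (x = 0 ∧ y = 0) ∨ (x = 1 ∧ y = 0) ∨ (x = 2 ∧ y = 0) ∨ (x = 1 ∧ y = 2) ∨ (x = 2 ∧ y = 1)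

theorem inA_inB : ∀ x y : Fin 3, inA x y = true → inB x y = true → x = 0 ∧ y = 0 := by decide

/-- the copy `i` is contained in `X`. -/
def full (X : Finset (Idx t J)) (i : Fin t) : Prop := ∀ p q, (.inl (i, p, q) : Idx t J) ∈ X

/-- the number of copies contained in `X`. -/
noncomputable def ns (X : Finset (Idx t J)) : ℕ :=
  open Classical in (Finset.univ.filter (fun i => full X i)).card

theorem nine_ns_le (X : Finset (Idx t J)) : 9 * ns X ≤ X.card := by
  classical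
  let F : Finset (Fin t) := Finset.univ.filter (fun i => full X i)
  have h1 : ((F ×ˢ (Finset.univ : Finset (Fin 3 × Fin 3))).map
      ⟨fun x => (.inl x : Idx t J), Sum.inl_injective⟩) ⊆ X := by
    intro x hx
    obtain ⟨⟨i, p, q⟩, h, rfl⟩ := Finset.mem_map.1 hx
    exact (Finset.mem_filter.1 (Finset.mem_product.1 h).1).2 p q
  have h2 := Finset.card_le_card h1
  rw [Finset.card_map, Finset.card_product] at h2
  have h3 : (Finset.univ : Finset (Fin 3 × Fin 3)).card = 9 := rfl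
  rw [h3] at h2
  have h4 : ns X = F.card := rfl
  omega

/-- zero on a spanning tree means zero. -/
theorem zero_of_tree {c : Fin 3 → Fin 3 → ℝ}
    (hc : ∀ p q p' q', c p q + c p' q' = c p q' + c p' q) (p0 q0 : Fin 3)
    (h : (∀ p q, inA (p - p0) (q - q0) = true → c p q = 0) ∨
      (∀ p q, inB (p - p0) (q - q0) = true → c p q = 0)) : ∀ p q, c p q = 0 := by
  have e : ∀ r r0 : Fin 3, r = r0 ∨ r = r0 + 1 ∨ r = r0 + 2 := by decide
  have s0 : ∀ r0 : Fin 3, r0 - r0 = 0 := by decide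
  have s1 : ∀ r0 : Fin 3, r0 + 1 - r0 = 1 := by decide
  have s2 : ∀ r0 : Fin 3, r0 + 2 - r0 = 2 := by decide
  rcases h with h | h
  · have h00 := h p0 q0 (by rw [s0, s0]; rfl)
    have h01 := h p0 (q0 + 1) (by rw [s0, s1]; rfl)
    have h11 := h (p0 + 1) (q0 + 1) (by rw [s1, s1]; rfl)
    have h02 := h p0 (q0 + 2) (by rw [s0, s2]; rfl)
    have h22 := h (p0 + 2) (q0 + 2) (by rw [s2, s2]; rfl)
    have hrow : ∀ q, c p0 q = 0 := by
      intro q
      rcases e q q0 with rfl | rfl | rfl <;> assumption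
    intro p q
    rcases e p p0 with rfl | rfl | rfl
    · exact hrow q
    · have := hc (p0 + 1) q p0 (q0 + 1)
      rw [hrow, hrow, h11] at this
      linarith
    · have := hc (p0 + 2) q p0 (q0 + 2)
      rw [hrow, hrow, h22] at this
      linarith
  · have h00 := h p0 q0 (by rw [s0, s0]; rfl)
    have h10 := h (p0 + 1) q0 (by rw [s1, s0]; rfl)
    have h20 := h (p0 + 2) q0 (by rw [s2, s0]; rfl)
    have h12 := h (p0 + 1) (q0 + 2) (by rw [s1, s2]; rfl)
    have h21 := h (p0 + 2) (q0 + 1) (by rw [s2, s1]; rfl)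
    have hcol : ∀ p, c p q0 = 0 := by
      intro p
      rcases e p p0 with rfl | rfl | rfl <;> assumption
    intro p q
    rcases e q q0 with rfl | rfl | rfl
    · exact hcol p
    · have := hc p (q0 + 1) (p0 + 2) q0
      rw [hcol, hcol, h21] at this
      linarith
    · have := hc p (q0 + 2) (p0 + 1) q0
      rw [hcol, hcol, h12] at this
      linarith

/-- **the counting bound.** -/
theorem two_finrank_le (X : Finset (Idx t J)) :
    2 * finrank ℝ ↥(Base t J ⊓ cs X) ≤ X.card + ns X := by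
  classical
  have hex : ∀ i : Fin t, ∃ e : Fin 3 × Fin 3, (.inl (i, e.1, e.2) : Idx t J) ∈ X → full X i := by
    intro i
    by_cases h : full X i
    · exact ⟨(0, 0), fun _ => h⟩
    · unfold full at h
      push Not at h
      obtain ⟨p, q, hpq⟩ := h
      exact ⟨(p, q), fun h' => absurd h' hpq⟩
  choose e he using hex
  let P1 : Idx t J → Prop := fun x =>
    (∃ i p q, x = .inl (i, p, q) ∧ inA (p - (e i).1) (q - (e i).2) = true) ∨
      ∃ j, x = .inr (j, false)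
  let P2 : Idx t J → Prop := fun x =>
    (∃ i p q, x = .inl (i, p, q) ∧ inB (p - (e i).1) (q - (e i).2) = true) ∨
      ∃ j, x = .inr (j, true)
  let T1 := X.filter P1
  let T2 := X.filter P2
  have h1 : finrank ℝ ↥(Base t J ⊓ cs X) ≤ T1.card := by
    refine finrank_le_card _ _ fun c hc hT => ?_
    have hz : ∀ x, P1 x → c x = 0 := by
      intro x hx
      by_cases hX : x ∈ X
      · exact hT x (Finset.mem_filter.2 ⟨hX, hx⟩)
      · exact hc.2 x hX
    ext x
    rcases x with ⟨i, p, q⟩ | ⟨j, b⟩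
    · exact zero_of_tree (c := fun p q => c (.inl (i, p, q))) (fun p q p' q' => hc.1.1 i p q p' q')
        (e i).1 (e i).2 (Or.inl fun p q h => hz _ (Or.inl ⟨i, p, q, rfl, h⟩)) p q
    · have h2 := hz (.inr (j, false)) (Or.inr ⟨j, rfl⟩)
      cases b
      · exact h2
      · rw [← hc.1.2 j, h2]; rfl
  have h2 : finrank ℝ ↥(Base t J ⊓ cs X) ≤ T2.card := by
    refine finrank_le_card _ _ fun c hc hT => ?_
    have hz : ∀ x, P2 x → c x = 0 := by
      intro x hx
      by_cases hX : x ∈ X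
      · exact hT x (Finset.mem_filter.2 ⟨hX, hx⟩)
      · exact hc.2 x hX
    ext x
    rcases x with ⟨i, p, q⟩ | ⟨j, b⟩
    · exact zero_of_tree (c := fun p q => c (.inl (i, p, q))) (fun p q p' q' => hc.1.1 i p q p' q')
        (e i).1 (e i).2 (Or.inr fun p q h => hz _ (Or.inl ⟨i, p, q, rfl, h⟩)) p q
    · have h2 := hz (.inr (j, true)) (Or.inr ⟨j, rfl⟩)
      cases b
      · rw [hc.1.2 j, h2]; rfl
      · exact h2
  have h3 : T1.card + T2.card = (T1 ∪ T2).card + (T1 ∩ T2).card :=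
    (Finset.card_union_add_card_inter T1 T2).symm
  have h4 : (T1 ∪ T2).card ≤ X.card := Finset.card_le_card
    (Finset.union_subset (Finset.filter_subset _ _) (Finset.filter_subset _ _))
  have h5 : (T1 ∩ T2).card ≤ ns X := by
    have h6 : T1 ∩ T2 ⊆ (Finset.univ.filter (fun i => full X i)).image
        (fun i => (.inl (i, (e i).1, (e i).2) : Idx t J)) := by
      intro x hx
      obtain ⟨hx1, hx2⟩ := Finset.mem_inter.1 hx
      obtain ⟨hX, hx1⟩ := Finset.mem_filter.1 hx1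
      obtain ⟨-, hx2⟩ := Finset.mem_filter.1 hx2
      rcases hx1 with ⟨i, p, q, rfl, hA⟩ | ⟨j, rfl⟩
      · rcases hx2 with ⟨i', p', q', h7, hB⟩ | ⟨j, h7⟩
        · obtain ⟨rfl, rfl, rfl⟩ : i = i' ∧ p = p' ∧ q = q' := by simpa using h7
          obtain ⟨hp, hq⟩ := inA_inB _ _ hA hB
          have hp' : p = (e i).1 := sub_eq_zero.1 hp
          have hq' : q = (e i).2 := sub_eq_zero.1 hq
          refine Finset.mem_image.2 ⟨i, Finset.mem_filter.2 ⟨Finset.mem_univ _, he i ?_⟩, ?_⟩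
          · rw [← hp', ← hq']; exact hX
          · rw [← hp', ← hq']
        · exact absurd h7 (by simp)
      · rcases hx2 with ⟨i', p', q', h7, hB⟩ | ⟨j', h7⟩
        · exact absurd h7 (by simp)
        · exact absurd h7 (by simp)
    exact (Finset.card_le_card h6).trans Finset.card_image_le
  omega

/-- the dimension of the base space. -/
theorem finrank_base : finrank ℝ (Base t J) = 5 * t + J := by
  classical
  refine le_antisymm ?_ finrank_base_ge
  have h1 := two_finrank_le (t := t) (J := J) Finset.univ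
  rw [cs_univ, inf_top_eq, Finset.card_univ, card_idx] at h1
  have h2 : ns (Finset.univ : Finset (Idx t J)) ≤ t := by
    unfold ns
    exact (Finset.card_filter_le _ _).trans (by simp)
  omega

/-- medians. -/
theorem exists_median (a : Fin 3 → ℝ) : ∃ x : ℝ, (∃ p p', p ≠ p' ∧ a p ≤ x ∧ a p' ≤ x) ∧
    ∃ p p', p ≠ p' ∧ x ≤ a p ∧ x ≤ a p' := by
  have n01 : (0 : Fin 3) ≠ 1 := by decide
  have n02 : (0 : Fin 3) ≠ 2 := by decide
  have n12 : (1 : Fin 3) ≠ 2 := by decide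
  rcases le_total (a 0) (a 1) with h1 | h1 <;> rcases le_total (a 1) (a 2) with h2 | h2 <;>
    rcases le_total (a 0) (a 2) with h3 | h3
  · exact ⟨a 1, ⟨0, 1, n01, h1, le_rfl⟩, ⟨1, 2, n12, le_rfl, h2⟩⟩
  · exact ⟨a 1, ⟨0, 1, n01, h1, le_rfl⟩, ⟨1, 2, n12, le_rfl, h2⟩⟩
  · exact ⟨a 2, ⟨0, 2, n02, h3, le_rfl⟩, ⟨1, 2, n12, h2, le_rfl⟩⟩
  · exact ⟨a 0, ⟨0, 2, n02, le_rfl, h3⟩, ⟨0, 1, n01, le_rfl, h1⟩⟩
  · exact ⟨a 0, ⟨0, 1, n01, le_rfl, h1⟩, ⟨0, 2, n02, le_rfl, h3⟩⟩
  · exact ⟨a 2, ⟨1, 2, n12, h2, le_rfl⟩, ⟨0, 2, n02, h3, le_rfl⟩⟩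
  · exact ⟨a 1, ⟨1, 2, n12, le_rfl, h2⟩, ⟨0, 1, n01, h1, le_rfl⟩⟩
  · exact ⟨a 1, ⟨1, 2, n12, le_rfl, h2⟩, ⟨0, 1, n01, h1, le_rfl⟩⟩

/-- a four-cycle of constant sign. -/
theorem exists_cycle {c : Fin 3 → Fin 3 → ℝ}
    (hc : ∀ p q p' q', c p q + c p' q' = c p q' + c p' q) :
    ∃ p p' q q', p ≠ p' ∧ q ≠ q' ∧
      ((0 ≤ c p q ∧ 0 ≤ c p q' ∧ 0 ≤ c p' q ∧ 0 ≤ c p' q') ∨
       (c p q ≤ 0 ∧ c p q' ≤ 0 ∧ c p' q ≤ 0 ∧ c p' q' ≤ 0)) := by
  obtain ⟨x, ⟨p1, p1', hp1, h1, h1'⟩, ⟨p2, p2', hp2, h2, h2'⟩⟩ :=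
    exists_median (fun p => c 0 0 - c p 0)
  obtain ⟨y, ⟨q1, q1', hq1, h3, h3'⟩, ⟨q2, q2', hq2, h4, h4'⟩⟩ :=
    exists_median (fun q => c 0 q)
  have hr : ∀ p q, c p q = c 0 q - (c 0 0 - c p 0) := by
    intro p q
    have := hc p q 0 0
    linarith
  rcases le_total x y with hxy | hxy
  · refine ⟨p1, p1', q2, q2', hp1, hq2, Or.inl ⟨?_, ?_, ?_, ?_⟩⟩ <;> rw [hr] <;> linarith
  · refine ⟨p2, p2', q1, q1', hp2, hq1, Or.inr ⟨?_, ?_, ?_, ?_⟩⟩ <;> rw [hr] <;> linarith

end H65.LN
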