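import Pool.Agent.H65.LN.Rk

/-!
H65 LN: the lower bound `d + 2k` (a line with `k + 2` points and generic points).
-/

open Module Submodule

namespace H65.LN

section general

variable {ι : Type*} [Fintype ι] [DecidableEq ι]

omit [Fintype ι] in
theorem exists_of_mem_qsp {Γ : Submodule ℝ (ι → ℝ)} {X : Set ι} {v : (ι → ℝ) ⧸ Γ}
    (hv : v ∈ qsp Γ X) : ∃ a : ι → ℝ, (∀ i, i ∉ X → a i = 0) ∧ Γ.mkQ a = v := by
  unfold qsp at hv
  induction hv using Submodule.span_induction with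
  | mem v hv =>
    obtain ⟨x, hx, rfl⟩ := hv
    refine ⟨Pi.single x 1, fun i hi => ?_, rfl⟩
    have : i ≠ x := by rintro rfl; exact hi hx
    exact Pi.single_eq_of_ne this 1
  | zero => exact ⟨0, fun _ _ => rfl, map_zero _⟩
  | add v w _ _ h4 h5 =>
    obtain ⟨a, ha, rfl⟩ := h4
    obtain ⟨b, hb, rfl⟩ := h5
    exact ⟨a + b, fun i hi => by simp [ha i hi, hb i hi], map_add _ _ _⟩
  | smul r v _ h4 =>
    obtain ⟨a, ha, rfl⟩ := h4
    exact ⟨r • a, fun i hi => by simp [ha i hi], map_smul _ _ _⟩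

/-- the intersection is not larger than the space of dependencies. -/
theorem finrank_inf_le (Γ : Submodule ℝ (ι → ℝ)) (P N : Set ι) (hPN : Disjoint P N) :
    finrank ℝ ↥(qsp Γ P ⊓ qsp Γ N) ≤ finrank ℝ Γ := by
  classical
  let R : (ι → ℝ) →ₗ[ℝ] (ι → ℝ) :=
    { toFun := fun c i => if i ∈ P then c i else 0
      map_add' := by
        intro a b
        ext i
        by_cases h : i ∈ P <;> simp [h]
      map_smul' := by
        intro r a
        ext i
        by_cases h : i ∈ P <;> simp [h] }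
  let r : Γ →ₗ[ℝ] ((ι → ℝ) ⧸ Γ) := (Γ.mkQ.comp R).comp Γ.subtype
  have hle : qsp Γ P ⊓ qsp Γ N ≤ LinearMap.range r := by
    rintro v ⟨hv1, hv2⟩
    obtain ⟨a, ha, hav⟩ := exists_of_mem_qsp hv1
    obtain ⟨b, hb, hbv⟩ := exists_of_mem_qsp hv2
    have hab : a - b ∈ Γ := by
      rw [← Submodule.ker_mkQ Γ, LinearMap.mem_ker, map_sub, hav, hbv, sub_self]
    refine ⟨⟨a - b, hab⟩, ?_⟩
    change Γ.mkQ (R (a - b)) = v
    rw [← hav]
    congr 1
    ext i
    change (if i ∈ P then (a - b) i else 0) = a i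
    by_cases h : i ∈ P
    · rw [if_pos h, Pi.sub_apply, hb i (Set.disjoint_left.1 hPN h), sub_zero]
    · rw [if_neg h, ha i h]
  exact (Submodule.finrank_mono hle).trans (LinearMap.finrank_range_le r)

/-- a positive generic space of dependencies of given codimension. -/
theorem exists_uniform (n q : ℕ) (hq : 1 ≤ q) (hqn : q ≤ n) :
    ∃ (Γ : Submodule ℝ (Fin n → ℝ)) (ψ : Fin n → ℝ), (∀ i, 0 < ψ i) ∧
      (∀ c ∈ Γ, ∑ i, ψ i * c i = 0) ∧ finrank ℝ Γ + q = n ∧
      ∀ X : Finset (Fin n), finrank ℝ ↥(Γ ⊓ cs X) ≤ X.card - q := by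
  obtain ⟨Γ, -, hdim, hX, hψ⟩ := exists_generic_sub (ι := Fin n) q ⊤ (by simpa using hqn)
  obtain ⟨ψ, h1, h2⟩ := hψ hq
  refine ⟨Γ, ψ, h1, h2, by simpa using hdim, fun X => ?_⟩
  have h3 := hX X
  rw [top_inf_eq] at h3
  have h4 : finrank ℝ (cs X) ≤ X.card := finrank_le_card _ _ fun c hc hT => by
    ext i
    by_cases hi : i ∈ X
    · exact hT i hi
    · exact hc i hi
  omega

end general

variable {n m : ℕ}

/-- the direct sum. -/
def dsum (Γ : Submodule ℝ (Fin n → ℝ)) (Δ : Submodule ℝ (Fin m → ℝ)) :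
    Submodule ℝ (Fin n ⊕ Fin m → ℝ) :=
  Γ.comap (LinearMap.funLeft ℝ ℝ Sum.inl) ⊓ Δ.comap (LinearMap.funLeft ℝ ℝ Sum.inr)

variable {Γ : Submodule ℝ (Fin n → ℝ)} {Δ : Submodule ℝ (Fin m → ℝ)}

theorem mem_dsum {c : Fin n ⊕ Fin m → ℝ} :
    c ∈ dsum Γ Δ ↔ (fun i => c (.inl i)) ∈ Γ ∧ (fun i => c (.inr i)) ∈ Δ := Iff.rfl

theorem dsum_ge : finrank ℝ Γ + finrank ℝ Δ ≤ finrank ℝ (dsum Γ Δ) := by
  let g : (Γ × Δ) →ₗ[ℝ] dsum Γ Δ :=
    { toFun := fun x => ⟨Sum.elim x.1.1 x.2.1, x.1.2, x.2.2⟩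
      map_add' := by
        intro x y
        apply Subtype.ext
        ext z
        rcases z with i | j <;> simp
      map_smul' := by
        intro r x
        apply Subtype.ext
        ext z
        rcases z with i | j <;> simp }
  have hg : Function.Injective g := by
    intro x y hxy
    have h1 := congrArg Subtype.val hxy
    refine Prod.ext (Subtype.ext ?_) (Subtype.ext ?_)
    · ext i
      have := congrFun h1 (.inl i)
      simpa [g] using this
    · ext i
      have := congrFun h1 (.inr i)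
      simpa [g] using this
  have := LinearMap.finrank_le_finrank_of_injective hg
  rwa [finrank_prod] at this

theorem dsum_cs_le (X : Finset (Fin n ⊕ Fin m)) : finrank ℝ ↥(dsum Γ Δ ⊓ cs X) ≤
    finrank ℝ ↥(Γ ⊓ cs X.toLeft) + finrank ℝ ↥(Δ ⊓ cs X.toRight) := by
  let g : ↥(dsum Γ Δ ⊓ cs X) →ₗ[ℝ] (↥(Γ ⊓ cs X.toLeft) × ↥(Δ ⊓ cs X.toRight)) :=
    { toFun := fun c => (⟨fun i => c.1 (.inl i), (mem_dsum.1 c.2.1).1, fun i hi => c.2.2 _ (by
          simpa using hi)⟩, ⟨fun i => c.1 (.inr i), (mem_dsum.1 c.2.1).2, fun i hi => c.2.2 _ (by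
          simpa using hi)⟩)
      map_add' := by intro x y; rfl
      map_smul' := by intro r x; rfl }
  have hg : Function.Injective g := by
    intro x y hxy
    apply Subtype.ext
    ext z
    rcases z with i | i
    · have h1 := congrArg (fun w => (w.1 : Fin n → ℝ)) hxy
      exact congrFun h1 i
    · have h1 := congrArg (fun w => (w.2 : Fin m → ℝ)) hxy
      exact congrFun h1 i
  have := LinearMap.finrank_le_finrank_of_injective hg
  rwa [finrank_prod] at this

/-- the rank bound for a direct sum. -/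
theorem rank_le_dsum {c : Fin n ⊕ Fin m → ℝ} :
    finrank ℝ ↥(qsp (dsum Γ Δ) {i | 0 < c i} ⊓ qsp (dsum Γ Δ) {i | c i < 0}) +
      finrank ℝ (dsum Γ Δ) + m ≤ 2 * finrank ℝ Δ + (n + m) := by
  classical
  have hker : dsum Γ Δ ≤ LinearMap.ker (Δ.mkQ.comp (LinearMap.funLeft ℝ ℝ Sum.inr)) := by
    intro x hx
    rw [LinearMap.mem_ker, LinearMap.comp_apply, ← LinearMap.mem_ker, Submodule.ker_mkQ]
    exact hx.2
  let π : ((Fin n ⊕ Fin m → ℝ) ⧸ dsum Γ Δ) →ₗ[ℝ] ((Fin m → ℝ) ⧸ Δ) := (dsum Γ Δ).liftQ _ hker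
  have hπ : ∀ x, π ((dsum Γ Δ).mkQ x) = Δ.mkQ (fun i => x (.inr i)) := by
    intro x
    change (dsum Γ Δ).liftQ _ hker ((dsum Γ Δ).mkQ x) = _
    rw [Submodule.mkQ_apply, Submodule.liftQ_apply]
    rfl
  have hsurj : Function.Surjective π := by
    intro y
    obtain ⟨x, rfl⟩ := Submodule.mkQ_surjective _ y
    refine ⟨(dsum Γ Δ).mkQ (Sum.elim 0 x), ?_⟩
    rw [hπ]
    rfl
  have h1 := LinearMap.finrank_range_add_finrank_ker π
  rw [LinearMap.range_eq_top.2 hsurj, finrank_top] at h1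
  have h2 := Submodule.finrank_quotient_add_finrank (dsum Γ Δ)
  have h3 := Submodule.finrank_quotient_add_finrank Δ
  rw [finrank_fintype_fun_eq_card] at h2 h3
  rw [Fintype.card_sum, Fintype.card_fin, Fintype.card_fin] at h2
  rw [Fintype.card_fin] at h3
  have hmap : ∀ Y : Set (Fin n ⊕ Fin m), (qsp (dsum Γ Δ) Y).map π ≤ qsp Δ {i | .inr i ∈ Y} := by
    intro Y
    unfold qsp
    rw [Submodule.map_span, span_le]
    rintro _ ⟨_, ⟨x, hx, rfl⟩, rfl⟩
    rw [SetLike.mem_coe]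
    unfold qv
    rw [hπ]
    rcases x with i | i
    · have h4 : (fun l : Fin m => (Pi.single (Sum.inl i) 1 : Fin n ⊕ Fin m → ℝ) (.inr l)) = 0 := by
        ext l
        simp
      rw [h4, map_zero]
      exact Submodule.zero_mem _
    · have h4 : (fun l : Fin m => (Pi.single (Sum.inr i) 1 : Fin n ⊕ Fin m → ℝ) (.inr l)) =
          Pi.single i 1 := by
        ext l
        by_cases h : l = i
        · subst h; simp
        · rw [Pi.single_eq_of_ne h, Pi.single_eq_of_ne]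
          simpa using h
      rw [h4]
      exact subset_span ⟨i, hx, rfl⟩
  set W := qsp (dsum Γ Δ) {i | 0 < c i} ⊓ qsp (dsum Γ Δ) {i | c i < 0} with hW
  have h4 := LinearMap.finrank_range_add_finrank_ker (π.domRestrict W)
  have h5 : LinearMap.range (π.domRestrict W) ≤
      qsp Δ {i | .inr i ∈ {i | 0 < c i}} ⊓ qsp Δ {i | .inr i ∈ {i | c i < 0}} := by
    rintro _ ⟨x, rfl⟩
    exact ⟨hmap _ ⟨x.1, x.2.1, rfl⟩, hmap _ ⟨x.1, x.2.2, rfl⟩⟩
  have h6 := Submodule.finrank_mono h5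
  have h7 : Disjoint {i : Fin m | (.inr i : Fin n ⊕ Fin m) ∈ {i | 0 < c i}}
      {i | (.inr i : Fin n ⊕ Fin m) ∈ {i | c i < 0}} := by
    rw [Set.disjoint_left]
    intro i hi hi'
    have h8 : 0 < c (.inr i) := hi
    have h9 : c (.inr i) < 0 := hi'
    linarith
  have h8 := finrank_inf_le Δ _ _ h7
  have h9 : finrank ℝ (LinearMap.ker (π.domRestrict W)) ≤ finrank ℝ (LinearMap.ker π) := by
    let g : LinearMap.ker (π.domRestrict W) →ₗ[ℝ] LinearMap.ker π :=
      LinearMap.codRestrict _ (W.subtype.comp (LinearMap.ker (π.domRestrict W)).subtype)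
        (fun x => x.2)
    exact LinearMap.finrank_le_finrank_of_injective (f := g) (by
      intro x y hxy
      have := congrArg Subtype.val hxy
      exact Subtype.ext (Subtype.ext this))
  omega

/-- **the lower bound `d + 2k`.** -/
theorem bound_line {k d : ℕ} (hk : 3 ≤ k) (hkd : k + 2 ≤ d) : d + 2 * k ≤ H15.nDiv k d := by
  classical
  obtain ⟨Γ, ψ, hψ, hΓψ, hΓ, hΓX⟩ := exists_uniform (k + 2) 2 (by omega) (by omega)
  obtain ⟨Δ, φ, hφ, hΔφ, hΔ, hΔX⟩ := exists_uniform (d + k - 3) (d - 1) (by omega) (by omega)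
  have hcard : Fintype.card (Fin (k + 2) ⊕ Fin (d + k - 3)) = d + 2 * k - 1 := by
    simp
    omega
  have hge := dsum_ge (Γ := Γ) (Δ := Δ)
  have hcs : ∀ X : Finset (Fin (k + 2) ⊕ Fin (d + k - 3)), finrank ℝ ↥(dsum Γ Δ ⊓ cs X) ≤
      (X.toLeft.card - 2) + (X.toRight.card - (d - 1)) := fun X =>
    (dsum_cs_le X).trans (add_le_add (hΓX _) (hΔX _))
  have hle : finrank ℝ (dsum Γ Δ) ≤ finrank ℝ Γ + finrank ℝ Δ := by
    have h1 := hcs Finset.univ
    rw [cs_univ, inf_top_eq] at h1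
    have h2 : (Finset.univ : Finset (Fin (k + 2) ⊕ Fin (d + k - 3))).toLeft.card ≤ k + 2 := by
      exact (Finset.card_le_univ _).trans (by simp)
    have h3 : (Finset.univ : Finset (Fin (k + 2) ⊕ Fin (d + k - 3))).toRight.card ≤ d + k - 3 := by
      exact (Finset.card_le_univ _).trans (by simp)
    omega
  have h := lt_nDiv (k := k) (d := d) (by omega) (dsum Γ Δ) (Sum.elim ψ φ) ?_ ?_ (by omega)
    ?_ ?_ ?_
  · omega
  · rintro (i | i)
    · exact hψ i
    · exact hφ i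
  · intro c hc
    rw [Fintype.sum_sum_type]
    simp only [Sum.elim_inl, Sum.elim_inr]
    rw [hΓψ _ (mem_dsum.1 hc).1, hΔφ _ (mem_dsum.1 hc).2, add_zero]
  · intro X hX
    have h1 := hcs X
    have h2 := Finset.card_toLeft_add_card_toRight (u := X)
    have h3 : finrank ℝ ↥(dsum Γ Δ ⊓ cs X) = 0 := by omega
    exact Submodule.finrank_eq_zero.1 h3
  · intro X hX
    have h1 := hcs X
    have h2 := Finset.card_toLeft_add_card_toRight (u := X)
    have h3 : X.toLeft.card ≤ k + 2 := (Finset.card_le_univ _).trans (by simp)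
    have h4 : X.toRight.card ≤ d + k - 3 := (Finset.card_le_univ _).trans (by simp)
    omega
  · intro c _
    have h1 := rank_le_dsum (Γ := Γ) (Δ := Δ) (c := c)
    omega

end H65.LN
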