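import Pool.Agent.H15.Lower

/-!
H65 LN: from point sets to families of vectors (the direction needed for lower bounds of
`nDiv`): a family of points whose lifts `(u i, 1)` have no dependency with a large
intersection `P ∩ N` is not divisible, and the flat condition is a linear one.
-/

open Module Submodule

namespace H65.LN

variable {d : ℕ} {ι : Type*} [Fintype ι]

/-- the span of the lifts of the points with index in `X`. -/
def lsp (u : ι → EuclideanSpace ℝ (Fin d)) (X : Set ι) :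
    Submodule ℝ (EuclideanSpace ℝ (Fin d) × ℝ) :=
  span ℝ ((fun i => ((u i, (1 : ℝ)) : EuclideanSpace ℝ (Fin d) × ℝ)) '' X)

theorem finrank_lift (C : Set (EuclideanSpace ℝ (Fin d))) (hC : C.Nonempty) :
    finrank ℝ (vectorSpan ℝ C) + 1 ≤
      finrank ℝ (span ℝ ((fun x => ((x, (1 : ℝ)) : EuclideanSpace ℝ (Fin d) × ℝ)) '' C)) := by
  classical
  obtain ⟨x0, hx0⟩ := hC
  set F : Submodule ℝ (EuclideanSpace ℝ (Fin d) × ℝ) :=
    span ℝ ((fun x => ((x, (1 : ℝ)) : EuclideanSpace ℝ (Fin d) × ℝ)) '' C) with hF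
  have h1 : (vectorSpan ℝ C).map (LinearMap.inl ℝ (EuclideanSpace ℝ (Fin d)) ℝ) ≤ F := by
    rw [Submodule.map_le_iff_le_comap, vectorSpan, span_le]
    rintro _ ⟨x, hx, y, hy, rfl⟩
    have h2 : ((x, 1) : EuclideanSpace ℝ (Fin d) × ℝ) - (y, 1) ∈ F :=
      F.sub_mem (subset_span ⟨x, hx, rfl⟩) (subset_span ⟨y, hy, rfl⟩)
    have h3 : LinearMap.inl ℝ (EuclideanSpace ℝ (Fin d)) ℝ (x - y) =
        ((x, 1) : EuclideanSpace ℝ (Fin d) × ℝ) - (y, 1) := by
      ext <;> simp
    change LinearMap.inl ℝ (EuclideanSpace ℝ (Fin d)) ℝ (x - y) ∈ F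
    rw [h3]
    exact h2
  have h2 : span ℝ {((x0, 1) : EuclideanSpace ℝ (Fin d) × ℝ)} ≤ F := by
    rw [span_singleton_le_iff_mem]
    exact subset_span ⟨x0, hx0, rfl⟩
  have h3 : (vectorSpan ℝ C).map (LinearMap.inl ℝ (EuclideanSpace ℝ (Fin d)) ℝ) ⊓
      span ℝ {((x0, 1) : EuclideanSpace ℝ (Fin d) × ℝ)} = ⊥ := by
    rw [eq_bot_iff]
    rintro x ⟨⟨y, _, hy⟩, hx⟩
    obtain ⟨r, rfl⟩ := Submodule.mem_span_singleton.1 hx
    have : (0:ℝ) = r := by
      have := congrArg Prod.snd hy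
      simpa using this
    simp [← this]
  have h4 := Submodule.finrank_sup_add_finrank_inf_eq
    ((vectorSpan ℝ C).map (LinearMap.inl ℝ (EuclideanSpace ℝ (Fin d)) ℝ))
    (span ℝ {((x0, 1) : EuclideanSpace ℝ (Fin d) × ℝ)})
  rw [h3, finrank_bot, finrank_span_singleton (by simp)] at h4
  have h5 := (Submodule.equivMapOfInjective
    (LinearMap.inl ℝ (EuclideanSpace ℝ (Fin d)) ℝ) LinearMap.inl_injective
      (vectorSpan ℝ C)).finrank_eq
  have h6 := Submodule.finrank_mono (sup_le h1 h2)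
  omega

/-- **no divisibility.** -/
theorem not_divisible {k : ℕ} (u : ι → EuclideanSpace ℝ (Fin d)) (hu : Function.Injective u)
    (S : Finset (EuclideanSpace ℝ (Fin d))) (hS : ∀ x, x ∈ S ↔ ∃ i, u i = x)
    (h : ∀ c : ι → ℝ, ∑ i, c i • ((u i, (1 : ℝ)) : EuclideanSpace ℝ (Fin d) × ℝ) = 0 →
      finrank ℝ ↥(lsp u {i | 0 < c i} ⊓ lsp u {i | c i < 0}) ≤ k) :
    ¬ H15.Divisible k S := by
  classical
  rintro ⟨A, B, hAB, hU, hdim⟩
  set C : Set (EuclideanSpace ℝ (Fin d)) :=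
    convexHull ℝ (A : Set (EuclideanSpace ℝ (Fin d))) ∩
      convexHull ℝ (B : Set (EuclideanSpace ℝ (Fin d))) with hC
  have hne : C.Nonempty := by
    by_contra hcon
    unfold H15.convDim at hdim
    rw [if_neg hcon] at hdim
    omega
  unfold H15.convDim at hdim
  rw [if_pos hne] at hdim
  have hdim' : k ≤ finrank ℝ (vectorSpan ℝ C) := by exact_mod_cast hdim
  have hl := finrank_lift C hne
  set F : Submodule ℝ (EuclideanSpace ℝ (Fin d) × ℝ) :=
    span ℝ ((fun x => ((x, (1 : ℝ)) : EuclideanSpace ℝ (Fin d) × ℝ)) '' C) with hF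
  have hfg : F.FG := IsNoetherian.noetherian F
  rw [hF, Submodule.fg_span_iff_fg_span_finset_subset] at hfg
  obtain ⟨T, hTC, hT⟩ := hfg
  rw [← hF] at hT
  -- weights
  have hmA : ∀ y, y ∈ A → y ∈ S := fun y hy => by
    have : y ∈ (A : Set (EuclideanSpace ℝ (Fin d))) ∪ B := Or.inl hy
    rw [hU] at this
    exact this
  have hmB : ∀ y, y ∈ B → y ∈ S := fun y hy => by
    have : y ∈ (A : Set (EuclideanSpace ℝ (Fin d))) ∪ B := Or.inr hy
    rw [hU] at this
    exact this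
  have hex : ∀ p : EuclideanSpace ℝ (Fin d) × ℝ, ∃ a b : EuclideanSpace ℝ (Fin d) → ℝ,
      p ∈ T → ((∀ y ∈ A, 0 ≤ a y) ∧
        ∑ y ∈ A, a y • ((y, (1 : ℝ)) : EuclideanSpace ℝ (Fin d) × ℝ) = p) ∧
        ((∀ y ∈ B, 0 ≤ b y) ∧
        ∑ y ∈ B, b y • ((y, (1 : ℝ)) : EuclideanSpace ℝ (Fin d) × ℝ) = p) := by
    intro p
    by_cases hp : p ∈ T
    · obtain ⟨x, hx, rfl⟩ := hTC hp
      obtain ⟨a, ha0, ha1, ha2⟩ := Finset.mem_convexHull'.1 hx.1
      obtain ⟨b, hb0, hb1, hb2⟩ := Finset.mem_convexHull'.1 hx.2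
      refine ⟨a, b, fun _ => ⟨⟨ha0, ?_⟩, ⟨hb0, ?_⟩⟩⟩
      · rw [Prod.ext_iff]
        constructor
        · rw [Prod.fst_sum]; simpa using ha2
        · rw [Prod.snd_sum]; simpa using ha1
      · rw [Prod.ext_iff]
        constructor
        · rw [Prod.fst_sum]; simpa using hb2
        · rw [Prod.snd_sum]; simpa using hb1
    · exact ⟨0, 0, fun h => absurd h hp⟩
  choose a b hab using hex
  let a' : ι → ℝ := fun i => if u i ∈ A then ∑ p ∈ T, a p (u i) else 0
  let b' : ι → ℝ := fun i => if u i ∈ B then ∑ p ∈ T, b p (u i) else 0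
  have hsumA : ∀ f : EuclideanSpace ℝ (Fin d) → (EuclideanSpace ℝ (Fin d) × ℝ),
      ∑ i, (if u i ∈ A then f (u i) else 0) = ∑ y ∈ A, f y := by
    intro f
    rw [← Finset.sum_filter]
    refine Finset.sum_bij (fun i _ => u i) ?_ ?_ ?_ ?_
    · intro i hi; exact (Finset.mem_filter.1 hi).2
    · intro i _ j _ hij; exact hu hij
    · intro y hy
      obtain ⟨i, hi⟩ := (hS y).1 (hmA y hy)
      exact ⟨i, Finset.mem_filter.2 ⟨Finset.mem_univ _, by rw [hi]; exact hy⟩, hi⟩
    · intro i _; rfl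
  have hsumB : ∀ f : EuclideanSpace ℝ (Fin d) → (EuclideanSpace ℝ (Fin d) × ℝ),
      ∑ i, (if u i ∈ B then f (u i) else 0) = ∑ y ∈ B, f y := by
    intro f
    rw [← Finset.sum_filter]
    refine Finset.sum_bij (fun i _ => u i) ?_ ?_ ?_ ?_
    · intro i hi; exact (Finset.mem_filter.1 hi).2
    · intro i _ j _ hij; exact hu hij
    · intro y hy
      obtain ⟨i, hi⟩ := (hS y).1 (hmB y hy)
      exact ⟨i, Finset.mem_filter.2 ⟨Finset.mem_univ _, by rw [hi]; exact hy⟩, hi⟩
    · intro i _; rfl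
  have hA' : ∑ i, a' i • ((u i, (1 : ℝ)) : EuclideanSpace ℝ (Fin d) × ℝ) = ∑ p ∈ T, p := by
    have h1 : ∀ i, a' i • ((u i, (1 : ℝ)) : EuclideanSpace ℝ (Fin d) × ℝ) =
        if u i ∈ A then (∑ p ∈ T, a p (u i)) • ((u i, (1 : ℝ)) : EuclideanSpace ℝ (Fin d) × ℝ)
          else 0 := by
      intro i
      by_cases hi : u i ∈ A <;> simp [a', hi]
    rw [Finset.sum_congr rfl fun i _ => h1 i,
      hsumA (fun y => (∑ p ∈ T, a p y) • ((y, (1 : ℝ)) : EuclideanSpace ℝ (Fin d) × ℝ))]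
    simp only [Finset.sum_smul]
    rw [Finset.sum_comm]
    exact Finset.sum_congr rfl fun p hp => (hab p hp).1.2
  have hB' : ∑ i, b' i • ((u i, (1 : ℝ)) : EuclideanSpace ℝ (Fin d) × ℝ) = ∑ p ∈ T, p := by
    have h1 : ∀ i, b' i • ((u i, (1 : ℝ)) : EuclideanSpace ℝ (Fin d) × ℝ) =
        if u i ∈ B then (∑ p ∈ T, b p (u i)) • ((u i, (1 : ℝ)) : EuclideanSpace ℝ (Fin d) × ℝ)
          else 0 := by
      intro i
      by_cases hi : u i ∈ B <;> simp [b', hi]
    rw [Finset.sum_congr rfl fun i _ => h1 i,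
      hsumB (fun y => (∑ p ∈ T, b p y) • ((y, (1 : ℝ)) : EuclideanSpace ℝ (Fin d) × ℝ))]
    simp only [Finset.sum_smul]
    rw [Finset.sum_comm]
    exact Finset.sum_congr rfl fun p hp => (hab p hp).2.2
  have hc := h (fun i => a' i - b' i) (by
    simp only [sub_smul, Finset.sum_sub_distrib]
    rw [hA', hB', sub_self])
  -- `F` lies in both spans
  have ha'0 : ∀ i, 0 ≤ a' i := by
    intro i
    by_cases hi : u i ∈ A
    · simp only [a', hi, if_true]
      exact Finset.sum_nonneg fun p hp => (hab p hp).1.1 _ hi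
    · simp [a', hi]
  have hb'0 : ∀ i, 0 ≤ b' i := by
    intro i
    by_cases hi : u i ∈ B
    · simp only [b', hi, if_true]
      exact Finset.sum_nonneg fun p hp => (hab p hp).2.1 _ hi
    · simp [b', hi]
  have hFP : F ≤ lsp u {i | 0 < a' i - b' i} := by
    rw [hT, span_le]
    intro p hp
    have hp' : p ∈ T := hp
    rw [SetLike.mem_coe, ← (hab p hp').1.2]
    refine Submodule.sum_mem _ fun y hy => ?_
    rcases ((hab p hp').1.1 y hy).eq_or_lt with h0 | h0
    · rw [← h0, zero_smul]; exact Submodule.zero_mem _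
    · obtain ⟨i, hi⟩ := (hS y).1 (hmA y hy)
      refine Submodule.smul_mem _ _ (subset_span ⟨i, ?_, by rw [← hi]⟩)
      have hiA : u i ∈ A := by rw [hi]; exact hy
      have hiB : u i ∉ B := Finset.disjoint_left.1 hAB hiA
      have h1 : b' i = 0 := by simp [b', hiB]
      have h2 : a p (u i) ≤ a' i := by
        simp only [a', hiA, if_true]
        exact Finset.single_le_sum (f := fun q => a q (u i))
          (fun q hq => (hab q hq).1.1 _ hiA) hp'
      have h3 : 0 < a p (u i) := by rw [hi]; exact h0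
      change 0 < a' i - b' i
      rw [h1]; linarith
  have hFN : F ≤ lsp u {i | a' i - b' i < 0} := by
    rw [hT, span_le]
    intro p hp
    have hp' : p ∈ T := hp
    rw [SetLike.mem_coe, ← (hab p hp').2.2]
    refine Submodule.sum_mem _ fun y hy => ?_
    rcases ((hab p hp').2.1 y hy).eq_or_lt with h0 | h0
    · rw [← h0, zero_smul]; exact Submodule.zero_mem _
    · obtain ⟨i, hi⟩ := (hS y).1 (hmB y hy)
      refine Submodule.smul_mem _ _ (subset_span ⟨i, ?_, by rw [← hi]⟩)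
      have hiB : u i ∈ B := by rw [hi]; exact hy
      have hiA : u i ∉ A := fun hh => Finset.disjoint_left.1 hAB hh hiB
      have h1 : a' i = 0 := by simp [a', hiA]
      have h2 : b p (u i) ≤ b' i := by
        simp only [b', hiB, if_true]
        exact Finset.single_le_sum (f := fun q => b q (u i))
          (fun q hq => (hab q hq).2.1 _ hiB) hp'
      have h3 : 0 < b p (u i) := by rw [hi]; exact h0
      change a' i - b' i < 0
      rw [h1]; linarith
  have h1 := Submodule.finrank_mono (le_inf hFP hFN)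
  omega

/-- **the flat condition.** -/
theorem flatCondition {k : ℕ} (u : ι → EuclideanSpace ℝ (Fin d)) (hu : Function.Injective u)
    (S : Finset (EuclideanSpace ℝ (Fin d))) (hS : ∀ x, x ∈ S ↔ ∃ i, u i = x)
    (h : ∀ X : Finset ι, finrank ℝ (lsp u (X : Set ι)) ≤ k + 1 → X.card ≤ 2 * k + 1) :
    H15.FlatCondition k S := by
  classical
  rintro ⟨F, T, hFne, hF, hTS, hcard, hTF⟩
  obtain ⟨p, hp⟩ := hFne
  let X : Finset ι := Finset.univ.filter (fun i => u i ∈ T)
  have hX : X.card = 2 * k + 2 := by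
    rw [← hcard]
    refine Finset.card_bij (fun i _ => u i) ?_ ?_ ?_
    · intro i hi; exact (Finset.mem_filter.1 hi).2
    · intro i _ j _ hij; exact hu hij
    · intro y hy
      obtain ⟨i, hi⟩ := (hS y).1 (hTS hy)
      exact ⟨i, Finset.mem_filter.2 ⟨Finset.mem_univ _, by rw [hi]; exact hy⟩, hi⟩
  have h1 : lsp u (X : Set ι) ≤
      F.direction.map (LinearMap.inl ℝ (EuclideanSpace ℝ (Fin d)) ℝ) ⊔
        span ℝ {((p, 1) : EuclideanSpace ℝ (Fin d) × ℝ)} := by
    unfold lsp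
    rw [span_le]
    rintro _ ⟨i, hi, rfl⟩
    have hi' : u i ∈ T := (Finset.mem_filter.1 hi).2
    have h2 : ((u i, (1 : ℝ)) : EuclideanSpace ℝ (Fin d) × ℝ) =
        LinearMap.inl ℝ (EuclideanSpace ℝ (Fin d)) ℝ (u i - p) + (p, 1) := by
      ext <;> simp
    change ((u i, (1 : ℝ)) : EuclideanSpace ℝ (Fin d) × ℝ) ∈ _
    rw [h2]
    exact Submodule.add_mem_sup (Submodule.mem_map_of_mem
      (AffineSubspace.vsub_mem_direction (hTF _ hi') hp)) (mem_span_singleton_self _)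
  have h2 := Submodule.finrank_mono h1
  have h3 := Submodule.finrank_add_le_finrank_add_finrank
    (F.direction.map (LinearMap.inl ℝ (EuclideanSpace ℝ (Fin d)) ℝ))
    (span ℝ {((p, 1) : EuclideanSpace ℝ (Fin d) × ℝ)})
  have h4 := (Submodule.equivMapOfInjective
    (LinearMap.inl ℝ (EuclideanSpace ℝ (Fin d)) ℝ) LinearMap.inl_injective F.direction).finrank_eq
  have h5 : finrank ℝ (span ℝ {((p, 1) : EuclideanSpace ℝ (Fin d) × ℝ)}) = 1 :=
    finrank_span_singleton (by simp)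
  have h6 := h X (by omega)
  omega

end H65.LN
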