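import Pool.Agent.H65.LN.Base

/-!
H65 LN: the intersection `P ∩ N` of a dependency of the lifted configuration.
-/

open Module Submodule

namespace H65.LN

variable {t J : ℕ}

/-- the functional of the four-cycle. -/
noncomputable def zfun (p p' q q' : Fin t → Fin 3) :
    (Idx t J → ℝ) →ₗ[ℝ] (Fin t ⊕ Fin J → ℝ) where
  toFun c := Sum.elim (fun i => c (.inl (i, p i, q i)) - c (.inl (i, p i, q' i)) -
      c (.inl (i, p' i, q i)) + c (.inl (i, p' i, q' i)))
    (fun j => c (.inr (j, false)) - c (.inr (j, true)))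
  map_add' := by
    intro x y
    ext z
    rcases z with i | j
    · simp; ring
    · simp; ring
  map_smul' := by
    intro r x
    ext z
    rcases z with i | j
    · simp; ring
    · simp; ring

theorem zfun_base (p p' q q' : Fin t → Fin 3) {c : Idx t J → ℝ} (hc : c ∈ Base t J) :
    zfun p p' q q' c = 0 := by
  ext z
  rcases z with i | j
  · have := hc.1 i (p i) (q i) (p' i) (q' i)
    simp only [zfun, LinearMap.coe_mk, AddHom.coe_mk, Sum.elim_inl, Pi.zero_apply]
    linarith
  · have := hc.2 j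
    simp only [zfun, LinearMap.coe_mk, AddHom.coe_mk, Sum.elim_inr, Pi.zero_apply]
    linarith

theorem zfun_surj {p p' q q' : Fin t → Fin 3} (hp : ∀ i, p i ≠ p' i) (hq : ∀ i, q i ≠ q' i) :
    Function.Surjective (zfun (J := J) p p' q q') := by
  classical
  intro y
  refine ⟨Sum.elim (fun x => if x.2.1 = p x.1 ∧ x.2.2 = q x.1 then y (.inl x.1) else 0)
    (fun x => if x.2 = false then y (.inr x.1) else 0), ?_⟩
  ext z
  rcases z with i | j
  · simp [zfun, (hp i).symm, (hq i).symm]
  · simp [zfun]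

/-- **the rank bound.** -/
theorem rank_le {Γ : Submodule ℝ (Idx t J → ℝ)} (hΓ : Γ ≤ Base t J) {m : ℕ}
    (hm : Fintype.card (Idx t J) ≤ finrank ℝ Γ + (t + J) + m) {c : Idx t J → ℝ} (hc : c ∈ Γ) :
    finrank ℝ ↥(qsp Γ {i | 0 < c i} ⊓ qsp Γ {i | c i < 0}) ≤ m := by
  classical
  have hcB := hΓ hc
  have hex : ∀ i : Fin t, ∃ p p' q q', p ≠ p' ∧ q ≠ q' ∧
      ((0 ≤ c (.inl (i, p, q)) ∧ 0 ≤ c (.inl (i, p, q')) ∧ 0 ≤ c (.inl (i, p', q)) ∧
        0 ≤ c (.inl (i, p', q'))) ∨
       (c (.inl (i, p, q)) ≤ 0 ∧ c (.inl (i, p, q')) ≤ 0 ∧ c (.inl (i, p', q)) ≤ 0 ∧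
        c (.inl (i, p', q')) ≤ 0)) := fun i =>
    exists_cycle (c := fun p q => c (.inl (i, p, q))) (fun p q p' q' => hcB.1 i p q p' q')
  choose p p' q q' hp hq hs using hex
  have hker : Γ ≤ LinearMap.ker (zfun (J := J) p p' q q') := fun x hx => by
    rw [LinearMap.mem_ker]
    exact zfun_base p p' q q' (hΓ hx)
  let Z : ((Idx t J → ℝ) ⧸ Γ) →ₗ[ℝ] (Fin t ⊕ Fin J → ℝ) := Γ.liftQ _ hker
  have hZ : ∀ x, Z (qv Γ x) = zfun p p' q q' (Pi.single x 1) := by
    intro x
    change Γ.liftQ _ hker (Γ.mkQ (Pi.single x 1)) = _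
    rw [Submodule.mkQ_apply, Submodule.liftQ_apply]
  have hsurj : Function.Surjective Z := by
    intro y
    obtain ⟨x, hx⟩ := zfun_surj (J := J) hp hq y
    refine ⟨Γ.mkQ x, ?_⟩
    change Γ.liftQ _ hker (Γ.mkQ x) = _
    rw [Submodule.mkQ_apply, Submodule.liftQ_apply]
    exact hx
  have h1 := LinearMap.finrank_range_add_finrank_ker Z
  rw [LinearMap.range_eq_top.2 hsurj, finrank_top, finrank_fintype_fun_eq_card] at h1
  have h2 : Fintype.card (Fin t ⊕ Fin J) = t + J := by simp
  have h3 := Submodule.finrank_quotient_add_finrank Γ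
  rw [finrank_fintype_fun_eq_card] at h3
  -- coordinates vanish on one side
  have hside : ∀ (Y : Set (Idx t J)) (z : Fin t ⊕ Fin J),
      (∀ x ∈ Y, zfun p p' q q' (Pi.single x 1) z = 0) → ∀ v ∈ qsp Γ Y, Z v z = 0 := by
    intro Y z hY v hv
    unfold qsp at hv
    induction hv using Submodule.span_induction with
    | mem v hv =>
      obtain ⟨x, hx, rfl⟩ := hv
      rw [hZ]
      exact hY x hx
    | zero => simp
    | add v w _ _ h4 h5 => rw [map_add, Pi.add_apply, h4, h5, add_zero]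
    | smul r v _ h4 => rw [map_smul, Pi.smul_apply, h4, smul_zero]
  have hle : qsp Γ {i | 0 < c i} ⊓ qsp Γ {i | c i < 0} ≤ LinearMap.ker Z := by
    rintro v ⟨hv1, hv2⟩
    rw [LinearMap.mem_ker]
    ext z
    rw [Pi.zero_apply]
    rcases z with i | j
    · rcases hs i with ⟨a1, a2, a3, a4⟩ | ⟨a1, a2, a3, a4⟩
      · refine hside _ _ (fun x hx => ?_) v hv2
        have hx' : c x < 0 := hx
        have b1 : (.inl (i, p i, q i) : Idx t J) ≠ x := by rintro rfl; exact absurd hx' (not_lt.2 a1)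
        have b2 : (.inl (i, p i, q' i) : Idx t J) ≠ x := by rintro rfl; exact absurd hx' (not_lt.2 a2)
        have b3 : (.inl (i, p' i, q i) : Idx t J) ≠ x := by rintro rfl; exact absurd hx' (not_lt.2 a3)
        have b4 : (.inl (i, p' i, q' i) : Idx t J) ≠ x := by
          rintro rfl; exact absurd hx' (not_lt.2 a4)
        simp [zfun, Pi.single_eq_of_ne b1, Pi.single_eq_of_ne b2, Pi.single_eq_of_ne b3,
          Pi.single_eq_of_ne b4]
      · refine hside _ _ (fun x hx => ?_) v hv1
        have hx' : 0 < c x := hx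
        have b1 : (.inl (i, p i, q i) : Idx t J) ≠ x := by rintro rfl; exact absurd hx' (not_lt.2 a1)
        have b2 : (.inl (i, p i, q' i) : Idx t J) ≠ x := by rintro rfl; exact absurd hx' (not_lt.2 a2)
        have b3 : (.inl (i, p' i, q i) : Idx t J) ≠ x := by rintro rfl; exact absurd hx' (not_lt.2 a3)
        have b4 : (.inl (i, p' i, q' i) : Idx t J) ≠ x := by
          rintro rfl; exact absurd hx' (not_lt.2 a4)
        simp [zfun, Pi.single_eq_of_ne b1, Pi.single_eq_of_ne b2, Pi.single_eq_of_ne b3,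
          Pi.single_eq_of_ne b4]
    · rcases le_total 0 (c (.inr (j, false))) with h | h
      · have h' : 0 ≤ c (.inr (j, true)) := by rw [← hcB.2 j]; exact h
        refine hside _ _ (fun x hx => ?_) v hv2
        have hx' : c x < 0 := hx
        have b1 : (.inr (j, false) : Idx t J) ≠ x := by rintro rfl; exact absurd hx' (not_lt.2 h)
        have b2 : (.inr (j, true) : Idx t J) ≠ x := by rintro rfl; exact absurd hx' (not_lt.2 h')
        simp [zfun, Pi.single_eq_of_ne b1, Pi.single_eq_of_ne b2]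
      · have h' : c (.inr (j, true)) ≤ 0 := by rw [← hcB.2 j]; exact h
        refine hside _ _ (fun x hx => ?_) v hv1
        have hx' : 0 < c x := hx
        have b1 : (.inr (j, false) : Idx t J) ≠ x := by rintro rfl; exact absurd hx' (not_lt.2 h)
        have b2 : (.inr (j, true) : Idx t J) ≠ x := by rintro rfl; exact absurd hx' (not_lt.2 h')
        simp [zfun, Pi.single_eq_of_ne b1, Pi.single_eq_of_ne b2]
  have h4 := Submodule.finrank_mono hle
  omega

/-- **the lower bound from copies of `K_{3,3}`.** -/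
theorem bound_copies {k d t j J : ℕ} (hkd : k ≤ d) (hj : 1 ≤ j) (h1 : 3 * t + j ≤ k)
    (h2 : k + 1 < 9 * j) (h3 : d + 1 = 4 * t + J + j) (h4 : j ≤ 5 * t + J) :
    9 * t + 2 * J < H15.nDiv k d := by
  classical
  obtain ⟨Γ, hΓ, hdim, hX, hψ⟩ := exists_generic_sub j (Base t J) (by rw [finrank_base]; exact h4)
  obtain ⟨ψ, hψ0, hψΓ⟩ := hψ hj
  rw [finrank_base] at hdim
  have hcard : Fintype.card (Idx t J) = 9 * t + 2 * J := card_idx
  rw [← hcard]
  refine lt_nDiv hkd Γ ψ hψ0 hψΓ (by omega) (fun X h5 => ?_) (fun X h5 => ?_) fun c hc =>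
    rank_le hΓ (by omega) hc
  · have h6 := hX X
    have h7 := two_finrank_le (t := t) (J := J) X
    have h8 := nine_ns_le X
    have h9 : finrank ℝ ↥(Γ ⊓ cs X) = 0 := by omega
    exact Submodule.finrank_eq_zero.1 h9
  · have h6 := hX X
    have h7 := two_finrank_le (t := t) (J := J) X
    have h8 := nine_ns_le X
    omega

end H65.LN
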